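import Mathlib
import Pool.Agent.helper67PW.Pig
import Pool.Agent.helper67PW.Prod
import Pool.Agent.helper67PW.Unit
import Pool.Agent.helper67PW.Lin
import Pool.Agent.helper67PW.Nonlin
import Pool.Agent.helper67PX.Literal

/-!
# Polynomial values as sums of scaled powers: every base, every field, both readings, systems

Let `𝕜` be a field of characteristic zero and let `p ≥ 2` be any integer (prime or not).

Definitions (files `Pool.Agent.helper67PW.Cluster` and `Pool.Agent.helper67PX.Literal`):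
* `solSet p f g` is the set `S(f; g_1, …, g_s; p)` of the problem, for `f ∈ 𝕜[z]` and `g_j ∈ 𝕜`;
* `sysSet p f g`, for a family `f = (f_i)` of polynomials over `𝕜` and constants `g_j = (g_j i)_i`, is the
  set of the `n ∈ ℕ` for which there are exponents `k_j`, the same for all `i`, with
  `f_i (n) = ∑ j, g_j i * p ^ k_j` for every `i`;
* `IsAP`, `IsPSumSet p`: arithmetic progressions and `p`-sum sets, as in the problem (sets of rationals);
* `IsFiniteUnion p S`: `S` is equal to the union of finitely many arithmetic progressions and `p`-sum sets;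
* `IsTraceOfFiniteUnion p S`: `S` is the set of all nonnegative integers contained in some finite union of
  arithmetic progressions and `p`-sum sets.
-/

set_option autoImplicit false

universe u v

open Polynomial

namespace Pool.Agent.Results.MP_a804c6_nt.BothReadings

open Pool.Agent.helper67PW.Cluster Pool.Agent.helper67PX.Literal

theorem sys_pos {𝕜 : Type u} [Field 𝕜] [CharZero 𝕜] {ι : Type v} (f : ι → 𝕜[X])
    (hf : ∀ i, (f i).natDegree ≤ 1) (p : ℕ) (hp : 2 ≤ p) (s : ℕ) (g : Fin s → ι → 𝕜) :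
    IsTraceOfFiniteUnion p (sysSet p f g) :=
  Pool.Agent.helper67PW.Lin.main_sys (Pool.Agent.helper67PW.Unit.main
    Pool.Agent.helper67PW.Pig.main Pool.Agent.helper67PW.Prod.main) p hp f hf s g

theorem sol_eq_sys {𝕜 : Type u} [Field 𝕜] (p : ℕ) (f : 𝕜[X]) {s : ℕ} (g : Fin s → 𝕜) :
    solSet p f g = sysSet p (fun _ : Unit => f) (fun j _ => g j) := by
  ext n
  exact exists_congr fun k => ⟨fun h _ => h, fun h => h ()⟩

/-- constant polynomials -/
theorem const_union {𝕜 : Type u} [Field 𝕜] (p : ℕ) (f : 𝕜[X]) (hf : f.natDegree = 0) {s : ℕ}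
    (g : Fin s → 𝕜) : IsFiniteUnion p (solSet p f g) := by
  obtain ⟨b, rfl⟩ := natDegree_eq_zero.1 hf
  by_cases h : ∃ k : Fin s → ℕ, b = ∑ j, g j * (p : 𝕜) ^ (k j)
  · refine ⟨{{x | ∃ n : ℕ, x = ((0 : ℕ) : ℚ) + ((1 : ℕ) : ℚ) * n}}, Set.finite_singleton _, ?_, ?_⟩
    · intro A hA
      rw [Set.mem_singleton_iff] at hA
      exact Or.inl ⟨0, 1, hA⟩
    · rw [Set.sUnion_singleton]
      ext x
      constructor
      · rintro ⟨n, _, rfl⟩
        exact ⟨n, by simp⟩
      · rintro ⟨n, rfl⟩
        obtain ⟨k, hk⟩ := h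
        exact ⟨n, ⟨k, by rw [eval_C]; exact hk⟩, by simp⟩
  · refine ⟨∅, Set.finite_empty, fun A hA => absurd hA (Set.notMem_empty A), ?_⟩
    rw [Set.sUnion_empty, Set.image_eq_empty, Set.eq_empty_iff_forall_notMem]
    rintro n ⟨k, hk⟩
    rw [eval_C] at hk
    exact h ⟨k, hk⟩

/-- Let `𝕜` be a field of characteristic zero.
(1) For every integer `p ≥ 2` and every `f ∈ 𝕜[z]`: all sets `S(f; g_1, …, g_s; p)` (`s ≥ 1`, `g_j ∈ 𝕜`) are
equal to finite unions of arithmetic progressions and `p`-sum sets if and only if `f` is constant; they are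
the sets of the nonnegative integers of such finite unions if and only if `deg f ≤ 1`. For
`f = α z + β` of degree one the first property fails for the constants `α, -α, β`.
(2) The second property holds for every system (finite or infinite) of polynomials of degree at most one.
(3) Let `f i₀` have the largest degree `d` in a system, `d ≥ 2`. For every sufficiently large `t` the
`2 d + 1` constants `g_j` = coefficients of `x ^ j` in the `f_i (x ^ 2 + x + t)` are not zero at `i₀` and the
set of the system does not have the second property, for any integer `p ≥ 2`. -/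
theorem result {𝕜 : Type u} [Field 𝕜] [CharZero 𝕜] :
    (∀ p : ℕ, 2 ≤ p → ∀ f : 𝕜[X],
      ((∀ s : ℕ, 1 ≤ s → ∀ g : Fin s → 𝕜, IsFiniteUnion p (solSet p f g)) ↔
        f.natDegree = 0) ∧
      ((∀ s : ℕ, 1 ≤ s → ∀ g : Fin s → 𝕜, IsTraceOfFiniteUnion p (solSet p f g)) ↔
        f.natDegree ≤ 1) ∧
      (f.natDegree = 1 → ¬ IsFiniteUnion p (solSet p f ![f.coeff 1, -f.coeff 1, f.coeff 0]))) ∧
    ∀ (ι : Type v) (f : ι → 𝕜[X]),
      ((∀ i, (f i).natDegree ≤ 1) → ∀ p : ℕ, 2 ≤ p → ∀ (s : ℕ) (g : Fin s → ι → 𝕜),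
        IsTraceOfFiniteUnion p (sysSet p f g)) ∧
      ∀ i₀ : ι, 2 ≤ (f i₀).natDegree → (∀ i, (f i).natDegree ≤ (f i₀).natDegree) →
        ∃ t₀ : ℕ, ∀ t : ℕ, t₀ ≤ t →
          (∀ j : Fin (2 * (f i₀).natDegree + 1),
            ((f i₀).comp (X ^ 2 + X + C (t : 𝕜))).coeff j ≠ 0) ∧
          ∀ p : ℕ, 2 ≤ p → ¬ IsTraceOfFiniteUnion p (sysSet p f
            (fun (j : Fin (2 * (f i₀).natDegree + 1)) (i : ι) =>
              ((f i).comp (X ^ 2 + X + C (t : 𝕜))).coeff j)) := by
  have htr : ∀ p : ℕ, 2 ≤ p → ∀ f : 𝕜[X],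
      ((∀ s : ℕ, 1 ≤ s → ∀ g : Fin s → 𝕜, IsTraceOfFiniteUnion p (solSet p f g)) ↔
        f.natDegree ≤ 1) := by
    refine fun p hp f => ⟨fun h => ?_, fun hf s _ g => ?_⟩
    · by_contra hcon
      obtain ⟨t₀, ht⟩ := Pool.Agent.helper67PW.Nonlin.main_sys (fun _ : Unit => f) ()
        (by omega) (fun _ => le_rfl)
      refine (ht t₀ le_rfl).2 p hp ?_
      have h1 := h (2 * f.natDegree + 1) (by omega)
        (fun j => (f.comp (X ^ 2 + X + C (t₀ : 𝕜))).coeff j)
      rw [sol_eq_sys] at h1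
      exact h1
    · rw [sol_eq_sys]
      exact sys_pos _ (fun _ => hf) p hp s _
  refine ⟨fun p hp f => ⟨⟨fun h => ?_, fun hf s _ g => const_union p f hf g⟩, htr p hp f,
    literal_fails p hp f⟩, fun ι f => ⟨fun hf p hp s g => sys_pos f hf p hp s g,
    fun i₀ hd hle => Pool.Agent.helper67PW.Nonlin.main_sys f i₀ hd hle⟩⟩
  have h1 : f.natDegree ≤ 1 := (htr p hp f).1 fun s hs g => (h s hs g).trace
  by_contra hcon
  exact literal_fails p hp f (by omega) (h 3 (by omega) _)

end Pool.Agent.Results.MP_a804c6_nt.BothReadings
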